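import Mathlib

namespace Pool.Agent.Results.MP_d5c33c_co.Bound
open Finset

lemma sum_col {X S : Type*} [Fintype X] [Fintype S] [DecidableEq S] (f : X → S) (φ : S → ℝ) :
    ∑ y, φ (f y) = ∑ a, φ a * ((Finset.univ.filter (fun y => f y = a)).card : ℝ) := by
  have : ∀ a, φ a * ((Finset.univ.filter (fun y => f y = a)).card : ℝ) =
      ∑ y, if f y = a then φ a else 0 := by
    intro a
    rw [← Finset.sum_filter, Finset.sum_const, nsmul_eq_mul, mul_comm]
  simp only [this]
  rw [Finset.sum_comm]
  simp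

lemma local_bound {X : Type*} [Fintype X] [DecidableEq X] (I : Finset X) (u : X) (hu : u ∈ I)
    (hn : 2 ≤ Fintype.card X) (m : X → ℝ) (N : X → X → ℝ) (γ : X → ℝ)
    (hγ : ∀ z, γ z = if z = u then 1 else if z ∈ I then -(1 / ((I.card : ℝ) - 1)) else 0)
    (h1 : ∀ v, ∑ z ∈ I, N z v = 0) (h2 : ∀ z ∈ I, ∑ v, m v * N z v = 0)
    (h3 : ∀ z ∈ I, ∑ v, N z v ^ 2 = ∑ v, N u v ^ 2) :
    (Fintype.card X : ℝ) / (Fintype.card X - 1) * ∑ v, (m v + N u v) ^ 2 ≤
      2 * ∑ z, ∑ v, (m v + γ z * N z v) * (m v + N u v) - ∑ z, ∑ v, (m v + γ z * N z v) ^ 2 := by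
  set δ : ℝ := 1 / ((I.card : ℝ) - 1) with hδ
  set ν := ∑ v, N u v ^ 2 with hν
  set μ := ∑ v, m v ^ 2 with hμ
  have hγm : ∀ z, γ z * ∑ v, m v * N z v = 0 := by
    intro z
    by_cases hz : z ∈ I
    · rw [h2 z hz, mul_zero]
    · have : z ≠ u := fun e => hz (e ▸ hu)
      rw [hγ]; simp [this, hz]
  have split : ∀ F : X → ℝ, ∀ t : ℝ → ℝ, t 0 = 0 →
      ∑ z, t (γ z) * F z = t 1 * F u + t (-δ) * ∑ z ∈ I.erase u, F z := by
    intro F t ht
    rw [← Finset.sum_subset (Finset.subset_univ I), ← Finset.add_sum_erase I _ hu, Finset.mul_sum]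
    · congr 1
      · rw [hγ]; simp
      · apply Finset.sum_congr rfl; intro z hz
        rw [Finset.mem_erase] at hz
        rw [hγ]; simp [hz.1, hz.2]
    · intro z _ hz
      have : z ≠ u := fun e => hz (e ▸ hu)
      rw [hγ]; simp [this, hz, ht]
  have e0 : ∑ v, (m v + N u v) ^ 2 = μ + ν := by
    have : ∀ v, (m v + N u v) ^ 2 = m v ^ 2 + N u v ^ 2 + 2 * (m v * N u v) := fun v => by ring
    simp only [this, Finset.sum_add_distrib, ← Finset.mul_sum, h2 u hu]; ring
  have e1 : ∑ z, ∑ v, (m v + γ z * N z v) * (m v + N u v) =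
      Fintype.card X * μ + (1 + δ) * ν := by
    have a1 : ∀ z, ∑ v, (m v + γ z * N z v) * (m v + N u v) =
        μ + γ z * ∑ v, N z v * N u v := by
      intro z
      have : ∀ v, (m v + γ z * N z v) * (m v + N u v) =
          m v ^ 2 + m v * N u v + γ z * (m v * N z v) + γ z * (N z v * N u v) := fun v => by ring
      simp only [this, Finset.sum_add_distrib, ← Finset.mul_sum, h2 u hu, hγm]; ring
    simp only [a1, Finset.sum_add_distrib]
    have a2 := split (fun z => ∑ v, N z v * N u v) id rfl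
    simp only [id] at a2
    have a3 : ∑ z ∈ I.erase u, ∑ v, N z v * N u v = -ν := by
      rw [Finset.sum_comm, hν, ← Finset.sum_neg_distrib]
      apply Finset.sum_congr rfl; intro v _
      have := h1 v
      rw [← Finset.add_sum_erase I _ hu] at this
      rw [← Finset.sum_mul, show ∑ z ∈ I.erase u, N z v = - N u v by linarith]; ring
    have a4 : ∑ v, N u v * N u v = ν := by simp only [hν, sq]
    rw [a2, a3, a4]; simp; ring
  have e2 : ∑ z, ∑ v, (m v + γ z * N z v) ^ 2 =
      Fintype.card X * μ + (1 + δ ^ 2 * (I.card - 1)) * ν := by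
    have a1 : ∀ z, ∑ v, (m v + γ z * N z v) ^ 2 = μ + γ z ^ 2 * ∑ v, N z v ^ 2 := by
      intro z
      have : ∀ v, (m v + γ z * N z v) ^ 2 =
          m v ^ 2 + 2 * (γ z * (m v * N z v)) + γ z ^ 2 * N z v ^ 2 := fun v => by ring
      simp only [this, Finset.sum_add_distrib, ← Finset.mul_sum, hγm]; ring
    simp only [a1, Finset.sum_add_distrib]
    have a2 := split (fun z => ∑ v, N z v ^ 2) (fun t => t ^ 2) (by simp)
    have a3 : ∑ z ∈ I.erase u, ∑ v, N z v ^ 2 = (I.card - 1) * ν := by
      rw [Finset.sum_congr rfl fun z hz => h3 z (Finset.mem_of_mem_erase hz), Finset.sum_const,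
        nsmul_eq_mul, Finset.cast_card_erase_of_mem hu]
    rw [a2, a3]; simp; ring
  rw [e0, e1, e2]
  have hμ0 : 0 ≤ μ := Finset.sum_nonneg fun v _ => sq_nonneg _
  have hν0 : 0 ≤ ν := Finset.sum_nonneg fun v _ => sq_nonneg _
  have hN : (2:ℝ) ≤ Fintype.card X := by exact_mod_cast hn
  have b1 : (Fintype.card X : ℝ) / (Fintype.card X - 1) ≤ Fintype.card X := by
    rw [div_le_iff₀ (by linarith)]; nlinarith
  have b2 : (Fintype.card X : ℝ) / (Fintype.card X - 1) * ν ≤
      (2 * (1 + δ) - (1 + δ ^ 2 * (I.card - 1))) * ν := by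
    rcases Nat.lt_or_ge 1 I.card with hI | hI
    · apply mul_le_mul_of_nonneg_right _ hν0
      have hI' : (1:ℝ) < I.card := by exact_mod_cast hI
      have hIX : (I.card : ℝ) ≤ Fintype.card X := by exact_mod_cast Finset.card_le_univ I
      have : δ ^ 2 * (I.card - 1) = δ := by
        have : (I.card : ℝ) - 1 ≠ 0 := by linarith
        rw [hδ]; field_simp
      rw [this]
      have c1 : (Fintype.card X : ℝ) / (Fintype.card X - 1) = 1 + 1 / (Fintype.card X - 1) := by
        have : (Fintype.card X : ℝ) - 1 ≠ 0 := by linarith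
        field_simp; ring
      have c2 : 1 / ((Fintype.card X : ℝ) - 1) ≤ δ :=
        one_div_le_one_div_of_le (by linarith) (by linarith)
      linarith
    · have : I = {u} := by
        apply Finset.eq_singleton_iff_unique_mem.2 ⟨hu, fun x hx => ?_⟩
        exact Finset.card_le_one.1 hI x hx u hu
      have z : ν = 0 := by
        apply Finset.sum_eq_zero; intro v _
        have := h1 v
        simp_all
      rw [z]; simp
  nlinarith

theorem result (X S : Type) [Fintype X] [Fintype S] [DecidableEq S] (col : X → X → S)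
    (hsurj : ∀ a, ∃ x y, col x y = a)
    (hdiag : ∀ x y z, col x x = col y z → y = z)
    (htr : ∀ a, ∃ b, ∀ x y, col x y = a ↔ col y x = b)
    (p : S → S → S → ℕ)
    (hp : ∀ a b x y,
      (Finset.univ.filter (fun z => col x z = a ∧ col z y = b)).card = p a b (col x y))
    (k : S → ℕ)
    (hk : ∀ x y, (Finset.univ.filter (fun z => col x z = col x y)).card = k (col x y))
    (hn : 2 ≤ Fintype.card X) (lam : ℝ) (w : S → ℝ) (hw : w ≠ 0)
    (heig : (Matrix.of fun a b : S => ∑ r, ∑ q,
        (Real.sqrt ((k a : ℝ) / (k r * k q)) * p r q a) *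
        (Real.sqrt ((k b : ℝ) / (k r * k q)) * p r q b)).mulVec w = lam • w) :
    (Fintype.card X : ℝ) / (Fintype.card X - 1) ≤ lam := by
  classical
  have F1 : ∀ x y x' y', col x y = col x' y' → col x x = col x' x' := by
    intro x y x' y' h
    have h1 := hp (col x x) (col x y) x y
    have h2 := hp (col x x) (col x y) x' y'
    rw [← h, ← h1] at h2
    obtain ⟨z, hz⟩ : (Finset.univ.filter
        (fun z => col x' z = col x x ∧ col z y' = col x y)).Nonempty := by
      rw [← Finset.card_pos, h2, Finset.card_pos]; exact ⟨x, by simp⟩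
    simp only [Finset.mem_filter, Finset.mem_univ, true_and] at hz
    have := hdiag _ _ _ hz.1.symm
    rw [← this] at hz; exact hz.1.symm
  have F2 : ∀ x y x' y', col x y = col x' y' → col y y = col y' y' := by
    intro x y x' y' h
    obtain ⟨b, hb⟩ := htr (col x y)
    exact F1 y x y' x' (((hb x y).1 rfl).trans ((hb x' y').1 h.symm).symm)
  have rowc : ∀ x x' a, col x x = col x' x' → (Finset.univ.filter (fun y => col x y = a)).card =
      (Finset.univ.filter (fun y => col x' y = a)).card := by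
    intro x x' a h
    obtain ⟨b, hb⟩ := htr a
    have e : ∀ x, (Finset.univ.filter (fun y => col x y = a)).card = p a b (col x x) := by
      intro x; rw [← hp]; congr 1; ext z; simp [← hb]
    rw [e, e, h]
  have row : ∀ (φ : S → ℝ) x x', col x x = col x' x' → ∑ y, φ (col x y) = ∑ y, φ (col x' y) := by
    intro φ x x' h
    rw [sum_col, sum_col]; simp only [rowc x x' _ h]
  have colm : ∀ (φ : S → ℝ) x x', col x x = col x' x' →
      ∑ y, φ (col y x) = ∑ y, φ (col y x') := by
    intro φ x x' h
    choose t ht using htr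
    have : ∀ x y, col y x = t (col x y) := fun x y => (ht _ x y).1 rfl
    rw [Finset.sum_congr rfl fun y _ => congrArg φ (this x y),
      Finset.sum_congr rfl fun y _ => congrArg φ (this x' y)]
    exact row (fun a => φ (t a)) x x' h
  choose sx tx hst using hsurj
  have kpos : ∀ a, (0:ℝ) < k a := by
    intro a
    rw [← hst a, ← hk]
    exact_mod_cast Finset.card_pos.2 ⟨tx a, by simp⟩
  set I : X → Finset X := fun u => Finset.univ.filter (fun z => col z z = col u u) with hI
  have memI : ∀ u z, z ∈ I u ↔ col z z = col u u := by intro u z; simp [hI]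
  have Ipos : ∀ u, (0:ℝ) < (I u).card := fun u => by
    exact_mod_cast Finset.card_pos.2 ⟨u, (memI u u).2 rfl⟩
  have Ieq : ∀ u u', col u u = col u' u' → I u = I u' := by
    intro u u' h; simp only [hI, h]
  have A : ∀ ψ : S → ℝ, ∑ u, 1 / ((I u).card : ℝ) * ∑ v, ψ (col u v) = ∑ a, k a * ψ a := by
    intro ψ
    simp only [sum_col (col _) ψ, Finset.mul_sum]
    rw [Finset.sum_comm]
    apply Finset.sum_congr rfl; intro a _
    rw [← Finset.sum_subset (Finset.subset_univ (I (sx a)))]
    · rw [Finset.sum_congr rfl (g := fun _ => 1 / ((I (sx a)).card : ℝ) * (ψ a * k a)),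
        Finset.sum_const, nsmul_eq_mul]
      · have := (Ipos (sx a)).ne'
        field_simp
      · intro u hu
        rw [memI] at hu
        have e := hk (sx a) (tx a)
        rw [hst] at e
        rw [Ieq u _ hu, rowc u _ a hu, e]
    · intro u _ hu
      have : Finset.univ.filter (fun y => col u y = a) = ∅ := by
        apply Finset.filter_eq_empty_iff.2
        intro y _ hy
        exact hu ((memI _ _).2 (F1 _ _ _ _ (hy.trans (hst a).symm)))
      simp [this]
  set φ : S → ℝ := fun a => w a / Real.sqrt (k a) with hφ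
  set T : S → S → ℝ := fun r q => ∑ a, k a * (φ a * p r q a) with hT
  have sq1 : ∀ a, Real.sqrt (k a) * Real.sqrt (k a) = k a := fun a => Real.mul_self_sqrt (kpos a).le
  have sqp : ∀ a, 0 < Real.sqrt (k a) := fun a => Real.sqrt_pos.2 (kpos a)
  have quad : lam * ∑ a, w a ^ 2 = ∑ r, ∑ q, T r q ^ 2 / (k r * k q) := by
    have e1 : lam * ∑ a, w a ^ 2 = ∑ a, w a * (lam • w) a := by
      rw [Finset.mul_sum]; apply Finset.sum_congr rfl; intro a _; simp; ring
    have e2 : ∀ r q, T r q ^ 2 / (k r * k q) = ∑ a, ∑ b,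
        w a * ((Real.sqrt ((k a : ℝ) / (k r * k q)) * p r q a) *
        (Real.sqrt ((k b : ℝ) / (k r * k q)) * p r q b) * w b) := by
      intro r q
      have hkk : (0:ℝ) < k r * k q := mul_pos (kpos r) (kpos q)
      rw [sq, hT, Finset.sum_mul_sum, Finset.sum_div]
      apply Finset.sum_congr rfl; intro a _
      rw [Finset.sum_div]
      apply Finset.sum_congr rfl; intro b _
      rw [Real.sqrt_div' _ hkk.le, Real.sqrt_div' _ hkk.le]
      have h1 := Real.mul_self_sqrt hkk.le
      have h2 := Real.sqrt_pos.2 hkk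
      have h3 : ∀ a, (k a : ℝ) * φ a = Real.sqrt (k a) * w a := by
        intro a
        have := sqp a
        simp only [hφ]
        nth_rewrite 1 [← sq1 a]
        field_simp
      rw [← mul_assoc (k a : ℝ), ← mul_assoc (k b : ℝ), h3, h3]
      set s := Real.sqrt (k r * k q)
      rw [← h1]; field_simp
    rw [e1, ← heig]
    simp only [e2, Matrix.mulVec, dotProduct, Matrix.of_apply, Finset.mul_sum, Finset.sum_mul]
    rw [Finset.sum_congr rfl fun r _ => Finset.sum_comm, Finset.sum_comm]
    apply Finset.sum_congr rfl; intro a _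
    rw [Finset.sum_congr rfl fun r _ => Finset.sum_comm, Finset.sum_comm]
  have nrm : ∑ a, w a ^ 2 = ∑ u, 1 / ((I u).card : ℝ) * ∑ v, φ (col u v) ^ 2 := by
    rw [A (fun a => φ a ^ 2)]
    apply Finset.sum_congr rfl; intro a _
    have := sqp a
    simp only [hφ]
    nth_rewrite 1 [← sq1 a]
    field_simp
  -- test function
  set m : X → X → ℝ := fun u v => 1 / ((I u).card : ℝ) * ∑ z ∈ I u, φ (col z v) with hm
  set γ : X → X → ℝ := fun u z =>
    if z = u then 1 else if z ∈ I u then -(1 / (((I u).card : ℝ) - 1)) else 0 with hγ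
  have minv : ∀ u u' v v', col u u = col u' u' → col v v = col v' v' → m u v = m u' v' := by
    intro u u' v v' h1 h2
    simp only [hm, ← Ieq u u' h1]
    congr 1
    have e : ∀ v, ∑ z ∈ I u, φ (col z v) =
        ∑ z, (fun a => if col (sx a) (sx a) = col u u then φ a else 0) (col z v) := by
      intro v
      simp only [hI]
      rw [Finset.sum_filter]
      apply Finset.sum_congr rfl; intro z _
      rw [F1 _ _ _ _ (hst (col z v))]
    rw [e, e]; exact colm (fun a => if col (sx a) (sx a) = col u u then φ a else 0) v v' h2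
  set C : X → X → X → ℝ := fun u z v => m u v + γ u z * (φ (col z v) - m u v) with hC
  have Cinv : ∀ u z v u' z' v', col u z = col u' z' → col z v = col z' v' →
      C u z v = C u' z' v' := by
    intro u z v u' z' v' h1 h2
    have a1 := F1 _ _ _ _ h1
    have a2 := F2 _ _ _ _ h1
    have a3 : z = u ↔ z' = u' :=
      ⟨fun e => (hdiag u _ _ (by rw [← h1, e])).symm, fun e => (hdiag u' _ _ (by rw [h1, e])).symm⟩
    have a4 : z ∈ I u ↔ z' ∈ I u' := by rw [memI, memI, a1, a2]
    have a5 : γ u z = γ u' z' := by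
      simp only [hγ, a3, a4]; rw [Ieq u u' a1]
    simp only [hC, h2, a5, minv u u' v v' a1 (F2 _ _ _ _ h2)]
  obtain ⟨c, hc⟩ : ∃ c : S → S → ℝ, ∀ u z v, c (col u z) (col z v) = C u z v := by
    refine ⟨fun r q => if h : ∃ t : X × X × X, col t.1 t.2.1 = r ∧ col t.2.1 t.2.2 = q then
      C h.choose.1 h.choose.2.1 h.choose.2.2 else 0, fun u z v => ?_⟩
    have h : ∃ t : X × X × X, col t.1 t.2.1 = col u z ∧ col t.2.1 t.2.2 = col z v :=
      ⟨(u, z, v), rfl, rfl⟩
    simp only [dif_pos h]
    exact Cinv _ _ _ _ _ _ h.choose_spec.1 h.choose_spec.2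
  set χ : S → S → X → X → X → ℝ := fun r q u z v =>
    if col u z = r ∧ col z v = q then 1 else 0 with hχ
  have Teq : ∀ r q, T r q =
      ∑ u, 1 / ((I u).card : ℝ) * ∑ z, ∑ v, χ r q u z v * φ (col u v) := by
    intro r q
    simp only [hT]
    rw [← A (fun a => φ a * p r q a)]
    apply Finset.sum_congr rfl; intro u _
    congr 1
    rw [Finset.sum_comm]
    apply Finset.sum_congr rfl; intro v _
    rw [← hp, Finset.card_filter, ← Finset.sum_mul, mul_comm]
    push_cast; rfl
  have cell : ∀ r q, 2 * (c r q * T r q) - c r q ^ 2 *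
      (∑ u, 1 / ((I u).card : ℝ) * ∑ z, ∑ v, χ r q u z v) ≤ T r q ^ 2 / (k r * k q) := by
    intro r q
    have hkk : (0:ℝ) < k r * k q := mul_pos (kpos r) (kpos q)
    by_cases hex : ∃ u z v, col u z = r ∧ col z v = q
    · obtain ⟨u0, z0, v0, h1, h2⟩ := hex
      have : ∑ u, 1 / ((I u).card : ℝ) * ∑ z, ∑ v, χ r q u z v = k r * k q := by
        have e : ∀ u z, ∑ v, χ r q u z v = (fun a => if a = r then (k q : ℝ) else 0) (col u z) := by
          intro u z
          by_cases h : col u z = r
          · have e1 := hk z0 v0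
            rw [h2, ← rowc z z0 q (F2 _ _ _ _ (h.trans h1.symm)), Finset.card_filter] at e1
            simp only [hχ, h, true_and, if_true]
            rw [← e1]; push_cast; rfl
          · simp [hχ, h]
        simp only [e]
        rw [A (fun a => if a = r then (k q : ℝ) else 0)]; simp
      rw [this, le_div_iff₀ hkk]
      nlinarith [sq_nonneg (T r q - c r q * (k r * k q))]
    · have z : ∀ u z v, χ r q u z v = 0 := fun u z v => if_neg fun h => hex ⟨u, z, v, h⟩
      rw [Teq]; simp [z]
  have coll : ∀ (F : S → S → ℝ) (H : X → X → X → ℝ),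
      ∑ r, ∑ q, F r q * ∑ u, 1 / ((I u).card : ℝ) * ∑ z, ∑ v, χ r q u z v * H u z v =
      ∑ u, 1 / ((I u).card : ℝ) * ∑ z, ∑ v, F (col u z) (col z v) * H u z v := by
    intro F H
    simp only [Finset.mul_sum]
    rw [Finset.sum_congr rfl fun r _ => Finset.sum_comm, Finset.sum_comm]
    apply Finset.sum_congr rfl; intro u _
    rw [Finset.sum_congr rfl fun r _ => Finset.sum_comm, Finset.sum_comm]
    apply Finset.sum_congr rfl; intro z _
    rw [Finset.sum_congr rfl fun r _ => Finset.sum_comm, Finset.sum_comm]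
    apply Finset.sum_congr rfl; intro v _
    rw [Finset.sum_eq_single (col u z), Finset.sum_eq_single (col z v)]
    · simp [hχ]; ring
    · intro q _ hq; simp [hχ, Ne.symm hq]
    · simp
    · intro r _ hr; simp [hχ, Ne.symm hr]
    · simp
  have tot := Finset.sum_le_sum fun r (_ : r ∈ (Finset.univ : Finset S)) =>
    Finset.sum_le_sum fun q (_ : q ∈ (Finset.univ : Finset S)) => cell r q
  rw [← quad] at tot
  simp only [Finset.sum_sub_distrib, ← Finset.mul_sum] at tot
  have c1 := coll c (fun u _ v => φ (col u v))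
  have c2 := coll (fun r q => c r q ^ 2) (fun _ _ _ => 1)
  simp only [mul_one, hc] at c2
  simp only [← Teq, hc] at c1
  rw [c1, c2, Finset.mul_sum, ← Finset.sum_sub_distrib] at tot
  have loc : ∀ u, (Fintype.card X : ℝ) / (Fintype.card X - 1) * ∑ v, φ (col u v) ^ 2 ≤
      2 * ∑ z, ∑ v, C u z v * φ (col u v) - ∑ z, ∑ v, C u z v ^ 2 := by
    intro u
    have h1 : ∀ v, ∑ z ∈ I u, (φ (col z v) - m u v) = 0 := by
      intro v
      have := (Ipos u).ne'
      rw [Finset.sum_sub_distrib, Finset.sum_const, nsmul_eq_mul]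
      simp only [hm]; field_simp; ring
    have cst : ∀ (t : ℝ → ℝ → ℝ), ∀ z ∈ I u, ∑ v, t (m u v) (φ (col z v)) =
        ∑ v, t (m u v) (φ (col u v)) := by
      intro t z hz
      have e : ∀ z, ∑ v, t (m u v) (φ (col z v)) =
          ∑ v, (fun a => t (m u (tx a)) (φ a)) (col z v) := by
        intro z
        apply Finset.sum_congr rfl; intro v _
        simp only [minv u u _ _ rfl (F2 _ _ _ _ (hst (col z v)))]
      rw [e, e]; exact row (fun a => t (m u (tx a)) (φ a)) _ _ ((memI _ _).1 hz)
    have h2 : ∀ z ∈ I u, ∑ v, m u v * (φ (col z v) - m u v) = 0 := by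
      have e : ∑ z ∈ I u, ∑ v, m u v * (φ (col z v) - m u v) = 0 := by
        rw [Finset.sum_comm]; simp only [← Finset.mul_sum, h1]; simp
      rw [Finset.sum_congr rfl fun z hz => cst (fun s t => s * (t - s)) z hz, Finset.sum_const,
        nsmul_eq_mul, mul_eq_zero] at e
      intro z hz
      rw [cst (fun s t => s * (t - s)) z hz]
      exact e.resolve_left (Ipos u).ne'
    have := local_bound (I u) u ((memI u u).2 rfl) hn (m u) (fun z v => φ (col z v) - m u v) (γ u)
      (fun z => rfl) h1 h2 (fun z hz => cst (fun s t => (t - s) ^ 2) z hz)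
    simpa only [add_sub_cancel] using this
  have fin : (Fintype.card X : ℝ) / (Fintype.card X - 1) * ∑ a, w a ^ 2 ≤ lam * ∑ a, w a ^ 2 := by
    refine le_trans ?_ tot
    rw [nrm, Finset.mul_sum]
    apply Finset.sum_le_sum; intro u _
    have := mul_le_mul_of_nonneg_left (loc u) (one_div_pos.2 (Ipos u)).le
    linarith
  have wpos : 0 < ∑ a, w a ^ 2 := by
    obtain ⟨a, ha⟩ := Function.ne_iff.1 hw
    exact Finset.sum_pos' (fun a _ => sq_nonneg _) ⟨a, Finset.mem_univ a, sq_pos_of_ne_zero ha⟩
  exact le_of_mul_le_mul_right fin wpos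

end Pool.Agent.Results.MP_d5c33c_co.Bound
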